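import Mathlib
import Pool.Agent.H390R2.LP.Iface2
open Finset
namespace Pool.Agent.H390R2.LP

/-- larger eigenvalue of `[[p, q], [q, s]]` -/
noncomputable def gp (p q s : ℝ) : ℝ := (p+s)/2 + √(((p-s)/2)^2+q^2)
/-- smaller eigenvalue of `[[p, q], [q, s]]` -/
noncomputable def gm (p q s : ℝ) : ℝ := (p+s)/2 - √(((p-s)/2)^2+q^2)

/-- diagonalisation of a symmetric `2 × 2` matrix -/
lemma exists_rot (p q s : ℝ) : ∃ W : Fin 2 → Fin 2 → ℝ,
    (∀ i i', W i 0 * W i' 0 + W i 1 * W i' 1 = if i = i' then 1 else 0) ∧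
    (∀ i i', W i 0 * W i' 0 * p + W i 0 * W i' 1 * q + W i 1 * W i' 0 * q + W i 1 * W i' 1 * s
      = if i = i' then (if i = 0 then gp p q s else gm p q s) else 0) := by
  set D := √(((p-s)/2)^2+q^2) with hD
  have hDsq : D ^ 2 = ((p-s)/2)^2+q^2 := Real.sq_sqrt (by positivity)
  have hDnn : 0 ≤ D := Real.sqrt_nonneg _
  set δ := (s - p) / 2 + D with hδ
  have hqδ : q ^ 2 = ((p - s) / 2 + D) * δ := by rw [hδ]; linear_combination -hDsq
  by_cases hν : q ^ 2 + δ ^ 2 = 0
  · have hq : q = 0 := by nlinarith [sq_nonneg q, sq_nonneg δ]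
    have hδ0 : δ = 0 := by nlinarith [sq_nonneg q, sq_nonneg δ]
    have hDe : D = (p - s) / 2 := by linarith
    refine ⟨fun i j => if i = j then 1 else 0, ?_, ?_⟩
    · intro i i'; fin_cases i <;> fin_cases i' <;> simp
    · intro i i'
      fin_cases i <;> fin_cases i' <;> simp [gp, gm, hq]
      · have : √(((p-s)/2)^2) = D := by rw [hD, hq]; congr 1; ring
        rw [this, hDe]; ring
      · have : √(((p-s)/2)^2) = D := by rw [hD, hq]; congr 1; ring
        rw [this, hDe]; ring
  · have hpos : 0 < q ^ 2 + δ ^ 2 := lt_of_le_of_ne (by positivity) (Ne.symm hν)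
    set ν := √(q ^ 2 + δ ^ 2) with hν'
    have hν2 : ν ^ 2 = q ^ 2 + δ ^ 2 := Real.sq_sqrt hpos.le
    have hνpos : 0 < ν := Real.sqrt_pos.mpr hpos
    have hgp : gp p q s = (p + s) / 2 + D := rfl
    have hgm : gm p q s = (p + s) / 2 - D := rfl
    refine ⟨![![q / ν, δ / ν], ![-δ / ν, q / ν]], ?_, ?_⟩
    · intro i i'
      fin_cases i <;> fin_cases i' <;> simp <;> field_simp <;> rw [hν2] <;> ring
    · intro i i'
      have e : ν ^ 2 ≠ 0 := by positivity
      have e1 : q * p + δ * q = ((p + s) / 2 + D) * q := by rw [hδ]; ring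
      have e2 : q * q + δ * s = ((p + s) / 2 + D) * δ := by
        rw [hδ] at *; linear_combination -hDsq
      have e3 : -δ * p + q * q = ((p + s) / 2 - D) * (-δ) := by
        rw [hδ] at *; linear_combination -hDsq
      have e4 : -δ * q + q * s = ((p + s) / 2 - D) * q := by rw [hδ]; ring
      have h00 : q / ν * (q / ν) * p + q / ν * (δ / ν) * q + δ / ν * (q / ν) * q
          + δ / ν * (δ / ν) * s = (p + s) / 2 + D := by
        have : q / ν * (q / ν) * p + q / ν * (δ / ν) * q + δ / ν * (q / ν) * q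
          + δ / ν * (δ / ν) * s = (q * (q * p + δ * q) + δ * (q * q + δ * s)) / ν ^ 2 := by
          field_simp
          ring
        rw [this, e1, e2, hν2, div_eq_iff hpos.ne']
        ring
      have h01 : q / ν * (-δ / ν) * p + q / ν * (q / ν) * q + δ / ν * (-δ / ν) * q
          + δ / ν * (q / ν) * s = 0 := by
        have : q / ν * (-δ / ν) * p + q / ν * (q / ν) * q + δ / ν * (-δ / ν) * q
          + δ / ν * (q / ν) * s
          = (-δ * (q * p + δ * q) + q * (q * q + δ * s)) / ν ^ 2 := by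
          field_simp
          ring
        rw [this, e1, e2, div_eq_iff e]
        ring
      have h11 : -δ / ν * (-δ / ν) * p + -δ / ν * (q / ν) * q + q / ν * (-δ / ν) * q
          + q / ν * (q / ν) * s = (p + s) / 2 - D := by
        have : -δ / ν * (-δ / ν) * p + -δ / ν * (q / ν) * q + q / ν * (-δ / ν) * q
          + q / ν * (q / ν) * s = (-δ * (-δ * p + q * q) + q * (-δ * q + q * s)) / ν ^ 2 := by
          field_simp
          ring
        rw [this, e3, e4, hν2, div_eq_iff hpos.ne']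
        ring
      fin_cases i <;> fin_cases i'
      · simpa [hgp] using h00
      · simpa using h01
      · have := h01
        simp
        linarith
      · simpa [hgm] using h11

theorem exists_site_of_data {N r : ℕ} (hr : r ≤ 2*N) (lam nu : Fin r → ℝ) (hl : ∀ a, 0 ≤ lam a)
    (hsum : ∑ a, lam a = 1) (v : Fin r → Fin N → Fin 2 → ℝ) (hnu : ∀ a, 0 < nu a)
    (hnorm : ∀ a, ∑ x, ∑ i, v a x i ^ 2 = nu a)
    (horth : ∀ a b, a ≠ b → ∑ x, ∑ i, v a x i * v b x i = 0) (P Q R : Fin N → ℝ)
    (hP : ∀ x, P x = ∑ a, lam a * (v a x 0 ^ 2 / nu a))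
    (hR : ∀ x, R x = ∑ a, lam a * (v a x 1 ^ 2 / nu a))
    (hQ : ∀ x, Q x = ∑ a, lam a * (v a x 0 * v a x 1 / nu a)) :
    ∃ s : Site (Fin N × Fin 2) (Fin N), s.S = ∑ a, Real.negMulLog (lam a) ∧
      s.h = ∑ x, (Real.negMulLog (gp (P x) (Q x) (R x)) + Real.negMulLog (gm (P x) (Q x) (R x))) ∧
      (∀ x, s.P x = P x + R x) ∧
      ∀ f : Fin N → ℝ, s.E (fun (_ : Unit) x => f x) = 2 * (∑ x, (P x + R x) * f x ^ 2
        - ∑ a, ∑ b, √(lam a * lam b) * ((∑ x, f x * ∑ i, v a x i * v b x i) ^ 2 / (nu a * nu b))) := by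
  classical
  obtain ⟨e⟩ : Nonempty (Fin r ↪ Fin N × Fin 2) :=
    Function.Embedding.nonempty_of_card_le (by simp; omega)
  have he := e.injective
  -- orthonormal basis extending the normalised vectors
  obtain ⟨v0, hv0def⟩ : ∃ v0 : Fin r → EuclideanSpace ℝ (Fin N × Fin 2),
      ∀ a ω, v0 a ω = v a ω.1 ω.2 / √(nu a) :=
    ⟨fun a => WithLp.toLp 2 (fun ω : Fin N × Fin 2 => v a ω.1 ω.2 / √(nu a)), fun a ω => rfl⟩
  obtain ⟨v1, hv1def⟩ : ∃ v1 : Fin N × Fin 2 → EuclideanSpace ℝ (Fin N × Fin 2),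
      ∀ a, v1 (e a) = v0 a := ⟨Function.extend e v0 0, fun a => he.extend_apply _ _ _⟩
  have hv0 : Orthonormal ℝ v0 := by
    rw [orthonormal_iff_ite]
    intro a b
    have h1 : inner ℝ (v0 a) (v0 b) = (∑ x, ∑ i, v a x i * v b x i) / (√(nu a) * √(nu b)) := by
      rw [PiLp.inner_apply, Fintype.sum_prod_type, Finset.sum_div]
      simp only [hv0def, RCLike.inner_apply, conj_trivial]
      refine Finset.sum_congr rfl fun x _ => ?_
      rw [Finset.sum_div]
      refine Finset.sum_congr rfl fun i _ => ?_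
      have := Real.sqrt_pos.mpr (hnu a)
      have := Real.sqrt_pos.mpr (hnu b)
      field_simp
    rw [h1]
    split_ifs with hab
    · subst hab
      have h2 : ∑ x, ∑ i, v a x i * v a x i = nu a := by rw [← hnorm a]; simp only [sq]
      rw [h2, Real.mul_self_sqrt (hnu a).le]
      exact div_self (hnu a).ne'
    · rw [horth a b hab]; simp
  have hv1 : Orthonormal ℝ ((Set.range e).domRestrict v1) := by
    rw [orthonormal_iff_ite]
    rintro ⟨_, a, rfl⟩ ⟨_, b, rfl⟩
    have := (orthonormal_iff_ite.mp hv0) a b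
    rw [Set.domRestrict_apply, Set.domRestrict_apply, hv1def, hv1def, this]
    by_cases hab : a = b
    · subst hab; rw [if_pos rfl, if_pos rfl]
    · rw [if_neg hab, if_neg (fun h => hab (he (congrArg Subtype.val h)))]
  obtain ⟨b, hb⟩ := hv1.exists_orthonormalBasis_extension_of_card_eq
    (finrank_euclideanSpace (𝕜 := ℝ) (ι := Fin N × Fin 2))
  have hbe : ∀ a, b (e a) = v0 a := by
    intro a
    rw [hb (e a) ⟨a, rfl⟩, hv1def]
  choose W hW1 hW2 using fun x => exists_rot (P x) (Q x) (R x)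
  let lam' : Fin N × Fin 2 → ℝ := Function.extend e lam 0
  have hlam' : ∀ a, lam' (e a) = lam a := fun a => he.extend_apply _ _ _
  have hlam0 : ∀ ω ∉ Set.range e, lam' ω = 0 := by
    intro ω hω
    simp only [lam', Function.extend]
    rw [dif_neg (by simpa using hω)]
    rfl
  have hsumΩ : ∀ F : Fin N × Fin 2 → ℝ, ∑ ω, lam' ω * F ω = ∑ a, lam a * F (e a) := by
    intro F
    symm
    apply Fintype.sum_of_injective e he
    · intro ω hω; rw [hlam0 ω hω, zero_mul]
    · intro a; rw [hlam']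
  have hub : ∀ a ω, b (e a) ω = v a ω.1 ω.2 / √(nu a) := by
    intro a ω; rw [hbe, hv0def]
  have hsq : ∀ a, √(nu a) * √(nu a) = nu a := fun a => Real.mul_self_sqrt (hnu a).le
  have hsqpos : ∀ a, 0 < √(nu a) := fun a => Real.sqrt_pos.mpr (hnu a)
  -- block entries
  have hblk : ∀ x i j, ∑ a, lam' a * (b a (x, i) * b a (x, j))
      = ∑ a, lam a * (v a x i * v a x j / nu a) := by
    intro x i j
    rw [hsumΩ (fun ω => b ω (x, i) * b ω (x, j))]
    refine Finset.sum_congr rfl fun a _ => ?_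
    rw [hub, hub]
    congr 1
    rw [div_mul_div_comm, hsq]
  have hB00 : ∀ x, ∑ a, lam' a * (b a (x, 0) * b a (x, 0)) = P x := by
    intro x; rw [hblk, hP]; simp only [sq]
  have hB11 : ∀ x, ∑ a, lam' a * (b a (x, 1) * b a (x, 1)) = R x := by
    intro x; rw [hblk, hR]; simp only [sq]
  have hB01 : ∀ x, ∑ a, lam' a * (b a (x, 0) * b a (x, 1)) = Q x := by
    intro x; rw [hblk, hQ]
  have hB10 : ∀ x, ∑ a, lam' a * (b a (x, 1) * b a (x, 0)) = Q x := by
    intro x; rw [← hB01]
    refine Finset.sum_congr rfl fun a _ => by ring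
  let w : Fin N × Fin 2 → Fin N × Fin 2 → ℝ := fun c ω => if c.1 = ω.1 then W c.1 c.2 ω.2 else 0
  have hw : ∀ (c : Fin N × Fin 2) (F : Fin N × Fin 2 → ℝ), ∑ ω, F ω * w c ω
      = F (c.1, 0) * W c.1 c.2 0 + F (c.1, 1) * W c.1 c.2 1 := by
    intro c F
    rw [Fintype.sum_prod_type]
    simp only [w, Fin.sum_univ_two]
    rw [Finset.sum_eq_single c.1]
    · simp
    · intro x _ hx
      simp [Ne.symm hx]
    · intro h; exact absurd (Finset.mem_univ _) h
  refine ⟨{ pos := Prod.fst
            u := fun a ω => b a ω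
            w := w
            lam := lam'
            g := fun c => if c.2 = 0 then gp (P c.1) (Q c.1) (R c.1) else gm (P c.1) (Q c.1) (R c.1)
            lab := Prod.fst
            u_orth := ?_
            w_orth := ?_
            lam_nonneg := ?_
            lam_sum := ?_
            w_supp := ?_
            w_diag := ?_ }, ?_, ?_, ?_, ?_⟩
  · intro a c
    have := (orthonormal_iff_ite.mp b.orthonormal) a c
    rw [PiLp.inner_apply] at this
    simp only [RCLike.inner_apply, conj_trivial] at this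
    rw [← this]
    refine Finset.sum_congr rfl fun ω _ => by ring
  · intro a c
    rw [hw c (fun ω => w a ω)]
    by_cases h : a.1 = c.1
    · simp only [w, h, if_true]
      rw [hW1 c.1 a.2 c.2]
      by_cases h2 : a.2 = c.2
      · rw [if_pos h2, if_pos (Prod.ext h h2)]
      · rw [if_neg h2, if_neg (fun hh => h2 (by rw [hh]))]
    · simp only [w, if_neg h, zero_mul, add_zero]
      rw [if_neg (fun hh => h (by rw [hh]))]
  · intro ω
    by_cases hω : ω ∈ Set.range e
    · obtain ⟨a, rfl⟩ := hω; rw [hlam']; exact hl a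
    · rw [hlam0 ω hω]
  · have := hsumΩ (fun _ => 1)
    simp only [mul_one] at this
    rw [this, hsum]
  · intro c ω h
    simp only [w]
    rw [if_neg (fun hh => h hh.symm)]
  · intro c c' hcc
    have h1 : ∀ a, ∑ ω, b a ω * w c ω = b a (c.1, 0) * W c.1 c.2 0 + b a (c.1, 1) * W c.1 c.2 1 :=
      fun a => hw c (fun ω => b a ω)
    have h2 : ∀ a, ∑ ω, b a ω * w c' ω
        = b a (c.1, 0) * W c.1 c'.2 0 + b a (c.1, 1) * W c.1 c'.2 1 := by
      intro a
      rw [hw c' (fun ω => b a ω), ← hcc]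
    simp_rw [h1, h2]
    have h3 : ∑ a, lam' a * (b a (c.1, 0) * W c.1 c.2 0 + b a (c.1, 1) * W c.1 c.2 1)
        * (b a (c.1, 0) * W c.1 c'.2 0 + b a (c.1, 1) * W c.1 c'.2 1)
        = W c.1 c.2 0 * W c.1 c'.2 0 * (∑ a, lam' a * (b a (c.1, 0) * b a (c.1, 0)))
        + W c.1 c.2 0 * W c.1 c'.2 1 * (∑ a, lam' a * (b a (c.1, 0) * b a (c.1, 1)))
        + W c.1 c.2 1 * W c.1 c'.2 0 * (∑ a, lam' a * (b a (c.1, 1) * b a (c.1, 0)))
        + W c.1 c.2 1 * W c.1 c'.2 1 * (∑ a, lam' a * (b a (c.1, 1) * b a (c.1, 1))) := by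
      simp_rw [Finset.mul_sum]
      rw [← Finset.sum_add_distrib, ← Finset.sum_add_distrib, ← Finset.sum_add_distrib]
      refine Finset.sum_congr rfl fun a _ => by ring
    rw [h3, hB00, hB01, hB10, hB11, hW2 c.1 c.2 c'.2]
    by_cases h : c.2 = c'.2
    · rw [if_pos h, if_pos (Prod.ext hcc h)]
    · rw [if_neg h, if_neg (fun hh => h (by rw [hh]))]
  · simp only [Site.S]
    symm
    apply Fintype.sum_of_injective e he
    · intro ω hω; rw [hlam0 ω hω, Real.negMulLog_zero]
    · intro a; rw [hlam']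
  · simp only [Site.h]
    rw [Fintype.sum_prod_type]
    refine Finset.sum_congr rfl fun x _ => ?_
    simp [Fin.sum_univ_two]
  · intro x
    simp only [Site.P]
    rw [Finset.sum_filter, Fintype.sum_prod_type]
    simp only [Fin.sum_univ_two]
    rw [Finset.sum_eq_single x]
    · simp [gp, gm]
    · intro y _ hy; simp [hy]
    · intro h; exact absurd (Finset.mem_univ _) h
  · intro f
    simp only [Site.E, Finset.univ_unique, Finset.sum_singleton]
    congr 1
    congr 1
    · rw [hsumΩ (fun a => ∑ ω, b a ω ^ 2 * f ω.1 ^ 2)]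
      have h1 : ∀ a, ∑ ω, b (e a) ω ^ 2 * f ω.1 ^ 2
          = ∑ x, (v a x 0 ^ 2 / nu a + v a x 1 ^ 2 / nu a) * f x ^ 2 := by
        intro a
        rw [Fintype.sum_prod_type]
        refine Finset.sum_congr rfl fun x _ => ?_
        rw [Fin.sum_univ_two, hub, hub, div_pow, div_pow, Real.sq_sqrt (hnu a).le]
        ring
      simp_rw [h1, Finset.mul_sum]
      rw [Finset.sum_comm]
      refine Finset.sum_congr rfl fun x _ => ?_
      rw [hP, hR, ← Finset.sum_add_distrib, Finset.sum_mul]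
      refine Finset.sum_congr rfl fun a _ => by ring
    · have h1 : ∀ a c, √(lam' a * lam' c) = √(lam' a) * √(lam' c) := by
        intro a c
        apply Real.sqrt_mul
        by_cases hω : a ∈ Set.range e
        · obtain ⟨a, rfl⟩ := hω; rw [hlam']; exact hl a
        · rw [hlam0 a hω]
      have h2 : ∀ (F : Fin N × Fin 2 → ℝ), ∑ ω, √(lam' ω) * F ω = ∑ a, √(lam a) * F (e a) := by
        intro F
        symm
        apply Fintype.sum_of_injective e he
        · intro ω hω; rw [hlam0 ω hω, Real.sqrt_zero, zero_mul]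
        · intro a; rw [hlam']
      simp_rw [h1, mul_assoc, ← Finset.mul_sum]
      rw [h2 (fun a => ∑ c, √(lam' c) * (∑ ω, b a ω * (f ω.1 * b c ω)) ^ 2)]
      refine Finset.sum_congr rfl fun a _ => ?_
      rw [h2 (fun c => (∑ ω, b (e a) ω * (f ω.1 * b c ω)) ^ 2), Finset.mul_sum]
      refine Finset.sum_congr rfl fun c _ => ?_
      rw [Real.sqrt_mul (hl a), mul_assoc]
      congr 2
      have h3 : ∑ ω, b (e a) ω * (f ω.1 * b (e c) ω)
          = (∑ x, f x * ∑ i, v a x i * v c x i) / (√(nu a) * √(nu c)) := by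
        rw [Fintype.sum_prod_type, Finset.sum_div]
        refine Finset.sum_congr rfl fun x _ => ?_
        rw [Finset.mul_sum, Finset.sum_div]
        refine Finset.sum_congr rfl fun i _ => ?_
        rw [hub, hub]
        have := hsqpos a
        have := hsqpos c
        field_simp
      rw [h3, div_pow, mul_pow, Real.sq_sqrt (hnu a).le, Real.sq_sqrt (hnu c).le]

end Pool.Agent.H390R2.LP
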