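import Mathlib
import Pool.Agent.H232R2.LP.SiteOfData
open Finset Real
namespace Pool.Agent.H232R2.LP
open Pool.Agent.H390R2.LP

/-- spectral theorem in coordinates -/
lemma exists_eig {r : ℕ} (K : Fin r → Fin r → ℝ) (hsymm : ∀ i j, K i j = K j i) :
    ∃ (o : Fin r → Fin r → ℝ) (κ : Fin r → ℝ),
      (∀ j k, ∑ i, o j i * o k i = if j = k then 1 else 0) ∧
      (∀ i l, ∑ j, o j i * o j l = if i = l then 1 else 0) ∧
      (∀ j i, ∑ l, K i l * o j l = κ j * o j i) := by
  classical
  set A : Matrix (Fin r) (Fin r) ℝ := Matrix.of K with hA'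
  have hA : A.IsHermitian := by
    ext i j
    simp [A, Matrix.conjTranspose_apply, hsymm i j]
  set b := hA.eigenvectorBasis with hb
  have h1 : ∀ j k, ∑ i, b j i * b k i = if j = k then (1:ℝ) else 0 := by
    intro j k
    have := (orthonormal_iff_ite.mp b.orthonormal) j k
    rw [← this]
    simp [PiLp.inner_apply, mul_comm]
  set O : Matrix (Fin r) (Fin r) ℝ := Matrix.of (fun j i => b j i) with hO
  have hOO : O * O.transpose = 1 := by
    ext j k
    simp [Matrix.mul_apply, O, Matrix.one_apply, h1]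
  have hOO' : O.transpose * O = 1 := mul_eq_one_comm.mp hOO
  refine ⟨fun j i => b j i, hA.eigenvalues, h1, ?_, ?_⟩
  · intro i l
    have := congrFun (congrFun hOO' i) l
    simpa [Matrix.mul_apply, O, Matrix.one_apply] using this
  · intro j i
    have := congrFun (hA.mulVec_eigenvectorBasis j) i
    simpa [Matrix.mulVec, dotProduct, A] using this

/-- `∑_{i,l} c i * K i l * c' l = ∑_j κ_j (∑ c i o_j i)(∑ c' l o_j l)` -/
lemma quad_eq {r : ℕ} {K : Fin r → Fin r → ℝ} {o : Fin r → Fin r → ℝ} {κ : Fin r → ℝ}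
    (h2 : ∀ i l, ∑ j, o j i * o j l = if i = l then 1 else 0)
    (h3 : ∀ j i, ∑ l, K i l * o j l = κ j * o j i) (i l : Fin r) :
    K i l = ∑ j, κ j * (o j i * o j l) := by
  have : ∑ j, κ j * (o j i * o j l) = ∑ m, K i m * ∑ j, o j m * o j l := by
    simp_rw [Finset.mul_sum]
    rw [Finset.sum_comm]
    refine Finset.sum_congr rfl fun j _ => ?_
    rw [← mul_assoc, ← h3 j i, Finset.sum_mul]
    refine Finset.sum_congr rfl fun m _ => by ring
  rw [this]
  simp [h2]

lemma bilin_eq {r : ℕ} {K : Fin r → Fin r → ℝ} {o : Fin r → Fin r → ℝ} {κ : Fin r → ℝ}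
    (hK : ∀ i l, K i l = ∑ j, κ j * (o j i * o j l)) (c c' : Fin r → ℝ) :
    ∑ i, ∑ l, c i * K i l * c' l = ∑ j, κ j * ((∑ i, c i * o j i) * (∑ l, c' l * o j l)) := by
  simp_rw [hK, Finset.sum_mul_sum, Finset.mul_sum, Finset.sum_mul]
  rw [show (∑ i, ∑ l, ∑ j, c i * (κ j * (o j i * o j l)) * c' l)
      = ∑ j, ∑ i, ∑ l, c i * (κ j * (o j i * o j l)) * c' l from ?_]
  · refine Finset.sum_congr rfl fun j _ => Finset.sum_congr rfl fun i _ =>
      Finset.sum_congr rfl fun l _ => by ring
  · rw [Finset.sum_comm]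
    rw [show (∑ l, ∑ i, ∑ j, c i * (κ j * (o j i * o j l)) * c' l)
      = ∑ l, ∑ j, ∑ i, c i * (κ j * (o j i * o j l)) * c' l from
      Finset.sum_congr rfl fun l _ => Finset.sum_comm]
    rw [Finset.sum_comm]
    refine Finset.sum_congr rfl fun j _ => Finset.sum_comm

/-- rotation invariance of the Hilbert-Schmidt norm -/
lemma hs_rot {r : ℕ} {o : Fin r → Fin r → ℝ}
    (h2 : ∀ i l, ∑ j, o j i * o j l = if i = l then 1 else 0) (F : Fin r → Fin r → ℝ) :
    ∑ j, ∑ k, (∑ i, ∑ l, o j i * o k l * F i l) ^ 2 = ∑ i, ∑ l, F i l ^ 2 := by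
  -- first rotate one index
  have key : ∀ (G : Fin r → ℝ), ∑ j, (∑ i, o j i * G i) ^ 2 = ∑ i, G i ^ 2 := by
    intro G
    have : ∀ j, (∑ i, o j i * G i) ^ 2 = ∑ i, ∑ l, (o j i * o j l) * (G i * G l) := by
      intro j
      rw [sq, Finset.sum_mul_sum]
      refine Finset.sum_congr rfl fun i _ => Finset.sum_congr rfl fun l _ => by ring
    simp_rw [this]
    rw [Finset.sum_comm]
    refine Finset.sum_congr rfl fun i _ => ?_
    rw [Finset.sum_comm]
    simp_rw [← Finset.sum_mul, h2]
    simp [sq]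
  calc ∑ j, ∑ k, (∑ i, ∑ l, o j i * o k l * F i l) ^ 2
      = ∑ k, ∑ j, (∑ i, o j i * (∑ l, o k l * F i l)) ^ 2 := by
        rw [Finset.sum_comm]
        refine Finset.sum_congr rfl fun k _ => Finset.sum_congr rfl fun j _ => ?_
        congr 1
        refine Finset.sum_congr rfl fun i _ => ?_
        rw [Finset.mul_sum]
        refine Finset.sum_congr rfl fun l _ => by ring
    _ = ∑ k, ∑ i, (∑ l, o k l * F i l) ^ 2 := Finset.sum_congr rfl fun k _ => key _
    _ = ∑ i, ∑ k, (∑ l, o k l * F i l) ^ 2 := Finset.sum_comm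
    _ = ∑ i, ∑ l, F i l ^ 2 := Finset.sum_congr rfl fun i _ => key _

lemma bil {N r : ℕ} (B : Fin N → Fin 2 → Fin r → ℝ) (f : Fin N → ℝ) (c d : Fin r → ℝ) :
    ∑ x, f x * ∑ s, (∑ i, B x s i * c i) * (∑ l, B x s l * d l)
      = ∑ i, ∑ l, c i * d l * (∑ x, f x * ∑ s, B x s i * B x s l) := by
  have L : ∀ x, f x * ∑ s, (∑ i, B x s i * c i) * (∑ l, B x s l * d l)
      = ∑ i, ∑ l, c i * d l * (f x * ∑ s, B x s i * B x s l) := by
    intro x
    have h : ∀ s, (∑ i, B x s i * c i) * (∑ l, B x s l * d l)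
        = ∑ i, ∑ l, c i * d l * (B x s i * B x s l) := by
      intro s
      rw [Finset.sum_mul_sum]
      refine Finset.sum_congr rfl fun i _ => Finset.sum_congr rfl fun l _ => by ring
    simp_rw [h]
    rw [Finset.sum_comm, Finset.mul_sum]
    refine Finset.sum_congr rfl fun i _ => ?_
    rw [Finset.sum_comm, Finset.mul_sum]
    refine Finset.sum_congr rfl fun l _ => ?_
    rw [← Finset.mul_sum]
    ring
  simp_rw [L]
  rw [Finset.sum_comm]
  refine Finset.sum_congr rfl fun i _ => ?_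
  rw [Finset.sum_comm]
  refine Finset.sum_congr rfl fun l _ => ?_
  rw [Finset.mul_sum]

theorem exists_site_of_B {N r : ℕ} (hr : r ≤ 2 * N) (B : Fin N → Fin 2 → Fin r → ℝ)
    (K : Fin r → Fin r → ℝ) (hK : ∀ i j, K i j = ∑ x, ∑ s, B x s i * B x s j)
    (hdet : ∀ c : Fin r → ℝ, (∀ i, ∑ j, K i j * c j = 0) → c = 0)
    (n : ℝ) (hn : n = ∑ i, ∑ j, K i j ^ 2) (hn0 : 0 < n)
    (P Q R : Fin N → ℝ)
    (hP : ∀ x, P x = ∑ i, ∑ j, B x 0 i * K i j * B x 0 j)
    (hQ : ∀ x, Q x = ∑ i, ∑ j, B x 0 i * K i j * B x 1 j)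
    (hR : ∀ x, R x = ∑ i, ∑ j, B x 1 i * K i j * B x 1 j) :
    ∃ s : Site (Fin N × Fin 2) (Fin N), s.S ≤ ∑ i, negMulLog ((∑ j, K i j ^ 2) / n) ∧
      s.h = ∑ x, (negMulLog (gp (P x / n) (Q x / n) (R x / n))
        + negMulLog (gm (P x / n) (Q x / n) (R x / n))) ∧
      (∀ x, s.P x = (P x + R x) / n) ∧
      ∀ f : Fin N → ℝ, s.E (fun (_ : Unit) x => f x) = 2 / n * (∑ x, (P x + R x) * f x ^ 2
        - ∑ i, ∑ j, (∑ x, f x * ∑ s, B x s i * B x s j) ^ 2) := by
  have hsymm : ∀ i j, K i j = K j i := by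
    intro i j; rw [hK, hK]
    refine Finset.sum_congr rfl fun x _ => Finset.sum_congr rfl fun s _ => by ring
  obtain ⟨o, κ, h1, h2, h3⟩ := exists_eig K hsymm
  have h4 := quad_eq h2 h3
  set v : Fin r → Fin N → Fin 2 → ℝ := fun j x s => ∑ i, B x s i * o j i with hv
  -- Gram matrix of v
  have hgram : ∀ j k, ∑ x, ∑ s, v j x s * v k x s = if j = k then κ k else 0 := by
    intro j k
    have e1 : ∑ x, ∑ s, v j x s * v k x s
        = ∑ i, o j i * ∑ l, K i l * o k l := by
      have := bil B (fun _ => 1) (o j) (o k)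
      simp only [one_mul] at this
      simp only [hv]
      rw [this]
      refine Finset.sum_congr rfl fun i _ => ?_
      rw [Finset.mul_sum]
      refine Finset.sum_congr rfl fun l _ => ?_
      rw [← hK]
      ring
    rw [e1]
    simp_rw [h3]
    rw [show (∑ i, o j i * (κ k * o k i)) = κ k * ∑ i, o j i * o k i by
      rw [Finset.mul_sum]; refine Finset.sum_congr rfl fun i _ => by ring]
    rw [h1]
    split_ifs <;> simp
  have hκnn : ∀ j, 0 ≤ κ j := by
    intro j
    have := hgram j j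
    rw [if_pos rfl] at this
    rw [← this]
    exact Finset.sum_nonneg fun x _ => Finset.sum_nonneg fun s _ => mul_self_nonneg _
  have hκpos : ∀ j, 0 < κ j := by
    intro j
    refine lt_of_le_of_ne (hκnn j) fun h0 => ?_
    have hc := hdet (o j) (fun i => by rw [h3, ← h0, zero_mul])
    have := h1 j j
    rw [hc] at this
    simp at this
  -- sum of squares
  have hD : ∀ i, ∑ j, K i j ^ 2 = ∑ j, κ j ^ 2 * o j i ^ 2 := by
    intro i
    have : ∑ l, K i l ^ 2 = ∑ l, K i l * ∑ j, κ j * (o j i * o j l) := by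
      refine Finset.sum_congr rfl fun l _ => ?_
      rw [← h4, sq]
    rw [this]
    simp_rw [Finset.mul_sum]
    rw [Finset.sum_comm]
    refine Finset.sum_congr rfl fun j _ => ?_
    rw [show (∑ l, K i l * (κ j * (o j i * o j l))) = κ j * o j i * ∑ l, K i l * o j l by
      rw [Finset.mul_sum]; refine Finset.sum_congr rfl fun i _ => by ring]
    rw [h3]; ring
  have hnκ : n = ∑ j, κ j ^ 2 := by
    rw [hn]
    simp_rw [hD]
    rw [Finset.sum_comm]
    refine Finset.sum_congr rfl fun j _ => ?_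
    rw [← Finset.mul_sum]
    have := h1 j j
    simp only [if_true] at this
    simp_rw [sq (o j _)]
    rw [this]; ring
  have hsumo : ∀ i, ∑ j, o j i ^ 2 = 1 := by
    intro i; have := h2 i i; simp only [if_true] at this; simpa [sq] using this
  have hsumo' : ∀ j, ∑ i, o j i ^ 2 = 1 := by
    intro j; have := h1 j j; simp only [if_true] at this; simpa [sq] using this
  obtain ⟨s, hsS, hsh, hsP, hsE⟩ := exists_site_of_data hr (fun j => κ j ^ 2 / n) κ
    (fun j => by positivity) (by rw [← Finset.sum_div, ← hnκ]; exact div_self hn0.ne') v hκpos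
    (fun j => by
      have := hgram j j
      rw [if_pos rfl] at this
      simpa [sq] using this)
    (fun j k hjk => by rw [hgram, if_neg hjk])
    (fun x => P x / n) (fun x => Q x / n) (fun x => R x / n)
    (fun x => by
      rw [hP, bilin_eq h4, Finset.sum_div]
      refine Finset.sum_congr rfl fun j _ => ?_
      have := (hκpos j).ne'
      simp only [hv]
      field_simp)
    (fun x => by
      rw [hR, bilin_eq h4, Finset.sum_div]
      refine Finset.sum_congr rfl fun j _ => ?_
      have := (hκpos j).ne'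
      simp only [hv]
      field_simp)
    (fun x => by
      rw [hQ, bilin_eq h4, Finset.sum_div]
      refine Finset.sum_congr rfl fun j _ => ?_
      have := (hκpos j).ne'
      simp only [hv]
      field_simp)
  refine ⟨s, ?_, hsh, fun x => by rw [hsP]; ring, ?_⟩
  · rw [hsS]
    calc ∑ j, negMulLog (κ j ^ 2 / n)
        = ∑ j, (∑ i, o j i ^ 2) * negMulLog (κ j ^ 2 / n) := by simp_rw [hsumo', one_mul]
      _ = ∑ i, ∑ j, o j i ^ 2 * negMulLog (κ j ^ 2 / n) := by
          simp_rw [Finset.sum_mul]; exact Finset.sum_comm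
      _ ≤ ∑ i, negMulLog (∑ j, o j i ^ 2 * (κ j ^ 2 / n)) := by
          refine Finset.sum_le_sum fun i _ => ?_
          have := Real.concaveOn_negMulLog.le_map_sum (t := Finset.univ)
            (w := fun j => o j i ^ 2) (p := fun j => κ j ^ 2 / n)
            (fun j _ => sq_nonneg _) (hsumo i) (fun j _ => by
              simp only [Set.mem_Ici]; positivity)
          simpa [smul_eq_mul] using this
      _ = ∑ i, negMulLog ((∑ j, K i j ^ 2) / n) := by
          refine Finset.sum_congr rfl fun i _ => ?_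
          congr 1
          rw [hD, Finset.sum_div]
          refine Finset.sum_congr rfl fun j _ => by ring
  · intro f
    rw [hsE]
    have hF : ∀ j k, (∑ x, f x * ∑ i, v j x i * v k x i)
        = ∑ i, ∑ l, o j i * o k l * (∑ x, f x * ∑ s, B x s i * B x s l) := by
      intro j k
      exact bil B f (o j) (o k)
    have hE2 : ∑ a, ∑ b, √(κ a ^ 2 / n * (κ b ^ 2 / n)) *
        ((∑ x, f x * ∑ i, v a x i * v b x i) ^ 2 / (κ a * κ b))
        = (∑ i, ∑ j, (∑ x, f x * ∑ s, B x s i * B x s j) ^ 2) / n := by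
      rw [← hs_rot h2 (fun i j => ∑ x, f x * ∑ s, B x s i * B x s j), Finset.sum_div]
      refine Finset.sum_congr rfl fun a _ => ?_
      rw [Finset.sum_div]
      refine Finset.sum_congr rfl fun b _ => ?_
      rw [hF]
      have ha := hκpos a
      have hb := hκpos b
      rw [show κ a ^ 2 / n * (κ b ^ 2 / n) = (κ a * κ b / n) ^ 2 by ring,
        Real.sqrt_sq (by positivity)]
      field_simp
    rw [hE2]
    rw [show (∑ x, (P x / n + R x / n) * f x ^ 2) = (∑ x, (P x + R x) * f x ^ 2) / n by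
      rw [Finset.sum_div]; refine Finset.sum_congr rfl fun x _ => by ring]
    ring

end Pool.Agent.H232R2.LP
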