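import Mathlib
import Pool.Agent.H232R2.LP.SiteOfData
open Finset Real
namespace Pool.Agent.H232R2.LP
open Pool.Agent.H390R2.LP

/-- two point majorisation for `negMulLog` -/
lemma eta_pair {t g τ : ℝ} (ht : 0 ≤ t) (htg : t ≤ g) (hg : g ≤ τ / 2) :
    negMulLog t + negMulLog (τ - t) ≤ negMulLog g + negMulLog (τ - g) := by
  rcases eq_or_lt_of_le (show t ≤ τ - t by linarith) with h | h
  · have : g = t := by linarith
    rw [this]
  · set θ : ℝ := (g - t) / (τ - t - t) with hθ
    have hd : 0 < τ - t - t := by linarith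
    have h0 : 0 ≤ θ := div_nonneg (by linarith) hd.le
    have h1 : θ ≤ 1 := by rw [hθ, div_le_one hd]; linarith
    have e : θ * (τ - t - t) = g - t := by rw [hθ]; field_simp
    have e1 : (1 - θ) * t + θ * (τ - t) = g := by linear_combination e
    have e2 : θ * t + (1 - θ) * (τ - t) = τ - g := by linear_combination -e
    have ht' : t ∈ Set.Ici (0:ℝ) := ht
    have ht'' : τ - t ∈ Set.Ici (0:ℝ) := by simp only [Set.mem_Ici]; linarith
    have c1 := Real.concaveOn_negMulLog.2 ht' ht'' (show 0 ≤ 1 - θ by linarith) h0 (by ring)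
    have c2 := Real.concaveOn_negMulLog.2 ht' ht'' h0 (show 0 ≤ 1 - θ by linarith) (by ring)
    simp only [smul_eq_mul] at c1 c2
    rw [e1] at c1
    rw [e2] at c2
    nlinarith [c1, c2]

lemma eta_block {p q s t n : ℝ} (hn : 0 < n) (ht : 0 ≤ t) (h2 : 2 * t ≤ p + s)
    (hdet : t * (p + s - t) ≤ p * s - q ^ 2) :
    negMulLog (t / n) + negMulLog ((p + s - t) / n)
      ≤ negMulLog (gp (p / n) (q / n) (s / n)) + negMulLog (gm (p / n) (q / n) (s / n)) := by
  set A := gm (p / n) (q / n) (s / n) with hA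
  have hsum : gp (p / n) (q / n) (s / n) = (p + s) / n - A := by
    rw [hA]; unfold gp gm; ring
  set D := ((p / n - s / n) / 2) ^ 2 + (q / n) ^ 2 with hD
  have hDnn : 0 ≤ D := by positivity
  have hAle : A ≤ (p + s) / n / 2 := by
    rw [hA]; unfold gm
    have := Real.sqrt_nonneg (((p / n - s / n) / 2) ^ 2 + (q / n) ^ 2)
    have e : (p / n + s / n) / 2 = (p + s) / n / 2 := by ring
    linarith
  have hprod : A * ((p + s) / n - A) = (p * s - q ^ 2) / n ^ 2 := by
    have hsq : √D ^ 2 = D := Real.sq_sqrt hDnn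
    have : A = (p / n + s / n) / 2 - √D := rfl
    rw [this]
    have e2 : ((p / n + s / n) / 2 - √D) * ((p + s) / n - ((p / n + s / n) / 2 - √D))
        = ((p / n + s / n) / 2) ^ 2 - √D ^ 2 := by ring
    rw [e2, hsq, hD]
    field_simp
    ring
  have htA : t / n ≤ A := by
    by_contra hcon
    push Not at hcon
    have h1 : (t / n) * ((p + s) / n - t / n) ≤ (p * s - q ^ 2) / n ^ 2 := by
      have : (t / n) * ((p + s) / n - t / n) = (t * (p + s - t)) / n ^ 2 := by
        field_simp
      rw [this]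
      exact div_le_div_of_nonneg_right hdet (by positivity)
    have h3 : t / n ≤ (p + s) / n / 2 := by
      rw [div_div, mul_comm n 2, ← div_div]
      rw [div_le_div_iff_of_pos_right hn]
      linarith
    rw [← hprod] at h1
    nlinarith [h1, hcon, h3]
  have key := eta_pair (τ := (p + s) / n) (div_nonneg ht hn.le) htA hAle
  rw [hsum]
  have e : (p + s - t) / n = (p + s) / n - t / n := by ring
  rw [e]
  linarith

lemma log_le_of_pow_le {y : ℝ} {m c : ℕ} (hy : 0 < y) (hm : 0 < m) (h : y ^ m ≤ 2 ^ c) :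
    Real.log y ≤ c / m * Real.log 2 := by
  have h1 : Real.log (y ^ m) ≤ Real.log (2 ^ c) := Real.log_le_log (by positivity) h
  rw [Real.log_pow, Real.log_pow] at h1
  have hm' : (0:ℝ) < m := by exact_mod_cast hm
  rw [div_mul_eq_mul_div, le_div_iff₀ hm']
  linarith

lemma log_ge_of_pow_ge {y : ℝ} {m c : ℕ} (hm : 0 < m) (h : 2 ^ c ≤ y ^ m) :
    c / m * Real.log 2 ≤ Real.log y := by
  have h1 : Real.log (2 ^ c) ≤ Real.log (y ^ m) := Real.log_le_log (by positivity) h
  rw [Real.log_pow, Real.log_pow] at h1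
  have hm' : (0:ℝ) < m := by exact_mod_cast hm
  rw [div_mul_eq_mul_div, div_le_iff₀ hm']
  linarith

lemma negMulLog_div {y n : ℝ} (hy : 0 < y) (hn : 0 < n) :
    negMulLog (y / n) = (y * Real.log n - y * Real.log y) / n := by
  unfold negMulLog
  rw [Real.log_div hy.ne' hn.ne']
  field_simp
  ring

end Pool.Agent.H232R2.LP
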