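import Mathlib
import Pool.Agent.H232R2.LP.Data
import Pool.Agent.H785R2.LP.Refine
open Finset Real
namespace Pool.Agent.H232R2.LP
open Pool.Agent.H390R2.LP Pool.Agent.H785R2.LP

/-- explicit one-site data: the sphere packing exponent of this site is larger than `0.603` -/
theorem exists_site_603 : ∃ (N : ℕ) (s : Site (Fin N × Fin 2) (Fin N)),
    603 / 1000 * Real.log 2 < cstar s := by
  obtain ⟨s, hs⟩ := dataC.sound 603 1000 (by norm_num) dataC_ok
  refine ⟨_, s, ?_⟩
  have e : gridf dataC.rows.length 1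
      = (fun (_ : Unit) (x : Fin dataC.rows.length) => (x.val : ℝ)) := by
    funext _ x; simp [gridf]
  unfold cstar
  rw [e]
  exact_mod_cast hs

/-- one-site data on a fine grid with packing exponent larger than `0.603` -/
theorem exists_site_cval : ∃ (Ω : Type) (_ : Fintype Ω) (_ : DecidableEq Ω) (q : ℕ)
    (s : Site Ω (Fin q)) (hg : ℝ), 0 < hg ∧ hg ≤ 1 ∧ 603 / 1000 * Real.log 2 < cval s hg := by
  obtain ⟨N, s, hs⟩ := exists_site_603
  obtain ⟨Ω', i1, i2, q', s', hg, h1, h2, h3⟩ := exists_refine s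
    (show 0 < (cstar s - 603 / 1000 * Real.log 2) / 2 by linarith)
  exact ⟨Ω', i1, i2, q', s', hg, h1, h2, by linarith⟩

end Pool.Agent.H232R2.LP
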