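import Mathlib
import Pool.Agent.H232R2.LP.BForm
import Pool.Agent.H232R2.LP.Eta
open Finset Real
namespace Pool.Agent.H232R2.LP
open Pool.Agent.H390R2.LP

/-- one grid cell of the certificate: the two rows of `B`, the `2 × 2` block of `n ρ`, an integer
lower bound `t` of its small eigenvalue and exponents for `log t`, `log (τ - t)` -/
structure Row where
  a : List ℤ
  b : List ℤ
  p : ℤ
  q : ℤ
  s : ℤ
  t : ℕ
  cm : ℕ
  cp : ℕ

def dotZ : List ℤ → List ℤ → ℤ
  | x :: xs, y :: ys => x * y + dotZ xs ys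
  | _, _ => 0

def quadZ (K : List (List ℤ)) (a b : List ℤ) : ℤ := dotZ a (K.map (fun k => dotZ k b))

def rowOK (K : List (List ℤ)) (r m : ℕ) (ρ : Row) : Bool :=
  (ρ.a.length == r) && (ρ.b.length == r) &&
  (quadZ K ρ.a ρ.a == ρ.p) && (quadZ K ρ.a ρ.b == ρ.q) && (quadZ K ρ.b ρ.b == ρ.s) &&
  decide (0 < ρ.t) && decide (2 * (ρ.t : ℤ) ≤ ρ.p + ρ.s) &&
  decide ((ρ.t : ℤ) * (ρ.p + ρ.s - ρ.t) ≤ ρ.p * ρ.s - ρ.q * ρ.q) &&
  Nat.ble (ρ.t ^ m) (2 ^ ρ.cm) && Nat.ble ((ρ.p + ρ.s - ρ.t).toNat ^ m) (2 ^ ρ.cp)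

def entry (ρ : Row) (i j : ℕ) : ℤ := ρ.a.getD i 0 * ρ.a.getD j 0 + ρ.b.getD i 0 * ρ.b.getD j 0

def sumRow (g : Row → ℤ) (rows : List Row) : ℤ := (rows.map g).sum

/-- weighted by a function of the position -/
def sumW (w : ℕ → ℤ) (g : Row → ℤ) : ℕ → List Row → ℤ
  | _, [] => 0
  | k, ρ :: rs => w k * g ρ + sumW w g (k + 1) rs

def sumN (f : ℕ → ℤ) : ℕ → ℤ
  | 0 => 0
  | n + 1 => sumN f n + f n

lemma sumN_eq (f : ℕ → ℤ) (n : ℕ) : sumN f n = ∑ i ∈ Finset.range n, f i := by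
  induction n with
  | zero => simp [sumN]
  | succ n ih => rw [Finset.sum_range_succ, ← ih]; rfl

def allN (p : ℕ → Bool) : ℕ → Bool
  | 0 => true
  | n + 1 => allN p n && p n

lemma allN_iff (p : ℕ → Bool) (n : ℕ) : allN p n = true ↔ ∀ i < n, p i = true := by
  induction n with
  | zero => simp [allN]
  | succ n ih =>
    simp only [allN, Bool.and_eq_true, ih]
    constructor
    · rintro ⟨h1, h2⟩ i hi
      rcases Nat.lt_succ_iff_lt_or_eq.mp hi with h | h
      · exact h1 i h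
      · rw [h]; exact h2
    · intro h
      exact ⟨fun i hi => h i (by omega), h n (by omega)⟩

def ent2 (K : List (List ℤ)) (i j : ℕ) : ℤ := (K.getD i []).getD j 0

lemma dotZ_nil_left (b : List ℤ) : dotZ [] b = 0 := by simp [dotZ]
lemma dotZ_nil_right (a : List ℤ) : dotZ a [] = 0 := by cases a <;> simp [dotZ]

lemma dotZ_eq (a b : List ℤ) (r : ℕ) (ha : a.length ≤ r) :
    dotZ a b = ∑ i ∈ Finset.range r, a.getD i 0 * b.getD i 0 := by
  induction a generalizing b r with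
  | nil => simp [dotZ_nil_left]
  | cons x xs ih =>
    cases b with
    | nil => simp [dotZ_nil_right]
    | cons y ys =>
      cases r with
      | zero => simp at ha
      | succ r =>
        rw [Finset.sum_range_succ']
        simp only [List.getD_cons_succ, List.getD_cons_zero, dotZ]
        rw [ih ys r (by simpa using ha)]
        ring

lemma quadZ_eq (K : List (List ℤ)) (a b : List ℤ) (r : ℕ) (ha : a.length ≤ r)
    (hK : ∀ k ∈ K, k.length ≤ r) :
    quadZ K a b = ∑ i ∈ Finset.range r, ∑ j ∈ Finset.range r,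
      a.getD i 0 * ent2 K i j * b.getD j 0 := by
  unfold quadZ
  rw [dotZ_eq a _ r ha]
  refine Finset.sum_congr rfl fun i _ => ?_
  have h1 : (K.map (fun k => dotZ k b)).getD i 0 = dotZ (K.getD i []) b := by
    rw [List.getD_eq_getElem?_getD, List.getD_eq_getElem?_getD, List.getElem?_map]
    cases K[i]? <;> simp [dotZ_nil_left]
  rw [h1, dotZ_eq (K.getD i []) b r ?_, Finset.mul_sum]
  · refine Finset.sum_congr rfl fun j _ => ?_
    unfold ent2; ring
  · rw [List.getD_eq_getElem?_getD]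
    rcases h : K[i]? with _ | k
    · simp
    · simp only [Option.getD_some]
      exact hK k (List.mem_of_getElem? h)

lemma sumRow_eq (g : Row → ℤ) (rows : List Row) :
    sumRow g rows = ∑ x : Fin rows.length, g rows[x] := by
  unfold sumRow
  exact (Fin.sum_univ_fun_getElem rows g).symm

lemma sumW_eq (w : ℕ → ℤ) (g : Row → ℤ) (k : ℕ) (rows : List Row) :
    sumW w g k rows = ∑ x : Fin rows.length, w (k + x.val) * g rows[x] := by
  induction rows generalizing k with
  | nil => simp [sumW]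
  | cons ρ rs ih =>
    simp only [sumW, List.length_cons]
    rw [Fin.sum_univ_succ, ih]
    simp only [Fin.val_zero, add_zero, Fin.getElem_fin, List.getElem_cons_zero, Fin.val_succ,
      List.getElem_cons_succ]
    congr 1
    refine Finset.sum_congr rfl fun x _ => ?_
    congr 2
    ring

structure Cert where
  rows : List Row
  K : List (List ℤ)
  F : List (List ℤ)
  D : List ℤ
  fe : List ℕ
  r : ℕ
  m : ℕ
  n : ℤ
  HS : ℤ
  T2 : ℤ
  F2 : ℤ
  SS : ℤ
  g : ℕ

def checkRows (c : Cert) : Bool := c.rows.all (rowOK c.K c.r c.m)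

def checkK (c : Cert) : Bool :=
  decide (c.r ≤ 2 * c.rows.length) && decide (0 < c.m) && decide (0 < c.n) &&
  c.K.all (fun k => decide (k.length ≤ c.r)) &&
  allN (fun i => allN (fun j => sumRow (fun ρ => entry ρ i j) c.rows == ent2 c.K i j) c.r) c.r

def checkF (c : Cert) : Bool :=
  allN (fun i => allN (fun j =>
    sumW (fun k => (k : ℤ)) (fun ρ => entry ρ i j) 0 c.rows == ent2 c.F i j) c.r) c.r

def checkD (c : Cert) : Bool :=
  allN (fun i => (sumN (fun j => ent2 c.K i j * ent2 c.K i j) c.r == c.D.getD i 0) &&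
    decide (0 < c.D.getD i 0) &&
    Nat.ble (2 ^ c.fe.getD i 0) ((c.D.getD i 0).toNat ^ c.m) &&
    decide (sumN (fun j => ((ent2 c.K i j).natAbs : ℤ)) c.r < 2 * ((ent2 c.K i i).natAbs : ℤ))) c.r

def checkS (c : Cert) : Bool :=
  (sumN (fun i => c.D.getD i 0) c.r == c.n) &&
  (sumN (fun i => c.D.getD i 0 * (c.fe.getD i 0 : ℤ)) c.r == c.SS) &&
  (sumRow (fun ρ => ρ.p + ρ.s) c.rows == c.n) &&
  (sumRow (fun ρ => (ρ.t : ℤ) * (ρ.cm : ℤ) + (ρ.p + ρ.s - ρ.t) * (ρ.cp : ℤ)) c.rows == c.HS) &&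
  (sumW (fun k => (k : ℤ) * k) (fun ρ => ρ.p + ρ.s) 0 c.rows == c.T2) &&
  (sumN (fun i => sumN (fun j => ent2 c.F i j * ent2 c.F i j) c.r) c.r == c.F2)

def checkG (c : Cert) (num den : ℕ) : Bool :=
  decide (0 < 12 * (c.T2 - c.F2) + c.n) &&
  Nat.ble ((85397343 * (12 * (c.T2 - c.F2) + c.n)).toNat ^ c.m)
    (2 ^ c.g * (120000000 * c.n).toNat ^ c.m) &&
  decide (2 * (num : ℤ) * c.n * c.m < den * (2 * (c.SS - c.HS) - c.g * c.n))

/-- all checks -/
def Cert.ok (c : Cert) (num den : ℕ) : Prop :=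
  checkRows c = true ∧ checkK c = true ∧ checkF c = true ∧ checkD c = true ∧ checkS c = true ∧
    checkG c num den = true

end Pool.Agent.H232R2.LP
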