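import Mathlib
import Pool.Agent.H232R2.LP.Num
open Finset Real
namespace Pool.Agent.H232R2.LP
open Pool.Agent.H390R2.LP

variable (c : Cert)

/-- the real matrix `B` of the certificate -/
noncomputable def Cert.B (x : Fin c.rows.length) (s : Fin 2) (i : Fin c.r) : ℝ :=
  if s = 0 then ((c.rows[x].a.getD i 0 : ℤ) : ℝ) else ((c.rows[x].b.getD i 0 : ℤ) : ℝ)

lemma Cert.B_zero (x : Fin c.rows.length) (i : Fin c.r) :
    c.B x 0 i = ((c.rows[x].a.getD i 0 : ℤ) : ℝ) := by simp [Cert.B]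
lemma Cert.B_one (x : Fin c.rows.length) (i : Fin c.r) :
    c.B x 1 i = ((c.rows[x].b.getD i 0 : ℤ) : ℝ) := by simp [Cert.B]

noncomputable def Cert.Kr (i j : Fin c.r) : ℝ := (ent2 c.K i j : ℝ)

lemma quad_cast (K : List (List ℤ)) (a b : List ℤ) (r : ℕ) (ha : a.length ≤ r)
    (hK : ∀ k ∈ K, k.length ≤ r) :
    ∑ i : Fin r, ∑ j : Fin r, ((a.getD i 0 : ℤ) : ℝ) * (ent2 K i j : ℝ) * ((b.getD j 0 : ℤ) : ℝ)
      = (quadZ K a b : ℝ) := by
  rw [quadZ_eq K a b r ha hK]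
  push_cast
  rw [← Fin.sum_univ_eq_sum_range (fun i => ∑ j ∈ Finset.range r,
    ((a.getD i 0 : ℤ) : ℝ) * (ent2 K i j : ℝ) * ((b.getD j 0 : ℤ) : ℝ)) r]
  refine Finset.sum_congr rfl fun i _ => ?_
  rw [← Fin.sum_univ_eq_sum_range (fun j =>
    ((a.getD i 0 : ℤ) : ℝ) * (ent2 K i j : ℝ) * ((b.getD j 0 : ℤ) : ℝ)) r]

lemma toNat_castR {z : ℤ} (hz : 0 ≤ z) : ((z.toNat : ℕ) : ℝ) = (z : ℝ) := by
  have : (((z.toNat : ℕ) : ℤ) : ℝ) = (z : ℝ) := by rw [Int.toNat_of_nonneg hz]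
  rw [← this, Int.cast_natCast]

lemma pi_mul_e_lt : π * Real.exp 1 < 85397343 / 10000000 := by
  have h1 := Real.pi_lt_d20
  have h2 := Real.exp_one_lt_d9
  have h3 := Real.pi_pos
  have h4 := Real.exp_pos 1
  calc π * Real.exp 1 ≤ 3.14159265358979323847 * 2.7182818286 := by
        apply mul_le_mul h1.le h2.le h4.le (by norm_num)
    _ < 85397343 / 10000000 := by norm_num

lemma logE_bound {W n : ℝ} {g m : ℕ} (hW : 0 < W) (hn : 0 < n) (hm : 0 < m)
    (h5 : (85397343 * W) ^ m ≤ 2 ^ g * (120000000 * n) ^ m) :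
    Real.log (2 * π * Real.exp 1) + Real.log (W / (6 * n)) - 2 * Real.log 2
      ≤ (g : ℝ) / m * Real.log 2 := by
  have hπ := Real.pi_pos
  have he := Real.exp_pos 1
  have hA : 0 < 2 * π * Real.exp 1 := by positivity
  have hB : 0 < W / (6 * n) := by positivity
  have h1 : Real.log (2 * π * Real.exp 1) + Real.log (W / (6 * n)) - 2 * Real.log 2
      = Real.log ((π * Real.exp 1) * W / (12 * n)) := by
    rw [← Real.log_mul hA.ne' hB.ne']
    rw [show (2:ℝ) * Real.log 2 = Real.log (2 ^ 2) by rw [Real.log_pow]; norm_num]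
    rw [← Real.log_div (mul_pos hA hB).ne' (by norm_num)]
    congr 1
    field_simp
    ring
  rw [h1]
  have h2 : Real.log ((π * Real.exp 1) * W / (12 * n))
      ≤ Real.log (85397343 / 10000000 * W / (12 * n)) := by
    apply Real.log_le_log (by positivity)
    apply div_le_div_of_nonneg_right _ (by positivity)
    exact mul_le_mul_of_nonneg_right pi_mul_e_lt.le hW.le
  refine h2.trans ?_
  have e3 : 85397343 / 10000000 * W / (12 * n) = (85397343 * W) / (120000000 * n) := by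
    field_simp
    ring
  apply log_le_of_pow_le (by positivity) hm
  rw [e3, div_pow, div_le_iff₀ (by positivity)]
  exact h5

lemma final_bound {S h L E SS HS n m g num den : ℝ} (hn : 0 < n) (hm : 0 < m) (hden : 0 < den)
    (hS : S ≤ L - SS / (n * m) * Real.log 2) (hh : L - HS / (n * m) * Real.log 2 ≤ h)
    (hE : E ≤ g / m * Real.log 2)
    (hfin : 2 * num * n * m < den * (2 * (SS - HS) - g * n)) :
    num / den * Real.log 2 < h - S - 1 / 2 * E := by
  have hlog2 : 0 < Real.log 2 := Real.log_pos (by norm_num)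
  have key : num / den < SS / (n * m) - HS / (n * m) - 1 / 2 * (g / m) := by
    rw [div_lt_iff₀ hden]
    have : (SS / (n * m) - HS / (n * m) - 1 / 2 * (g / m)) * den
        = (den * (2 * (SS - HS) - g * n)) / (2 * n * m) := by
      field_simp
    rw [this, lt_div_iff₀ (by positivity)]
    calc num * (2 * n * m) = 2 * num * n * m := by ring
      _ < _ := hfin
  have key2 := mul_lt_mul_of_pos_right key hlog2
  nlinarith [key2]

/-- Everything except the final numerical comparison (reusable for other objectives). -/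
theorem Cert.base (hrows : checkRows c = true) (hKc : checkK c = true) (hF : checkF c = true)
    (hD : checkD c = true) (hS : checkS c = true) :
    ∃ s : Site (Fin c.rows.length × Fin 2) (Fin c.rows.length),
      s.S ≤ Real.log c.n - (c.SS : ℝ) / (c.n * c.m) * Real.log 2 ∧
      Real.log c.n - (c.HS : ℝ) / (c.n * c.m) * Real.log 2 ≤ s.h ∧
      (∀ x, s.P x = ((c.rows[x].p : ℝ) + (c.rows[x].s : ℝ)) / c.n) ∧
      s.E (fun (_ : Unit) (x : Fin c.rows.length) => (x.val : ℝ)) = 2 / c.n * (c.T2 - c.F2) := by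
  simp only [checkK, Bool.and_eq_true, decide_eq_true_eq, List.all_eq_true, allN_iff,
    beq_iff_eq] at hKc
  obtain ⟨⟨⟨⟨hr, hm⟩, hn⟩, hKlen⟩, hKe⟩ := hKc
  simp only [checkF, allN_iff, beq_iff_eq] at hF
  simp only [checkD, allN_iff, Bool.and_eq_true, beq_iff_eq, decide_eq_true_eq,
    Nat.ble_eq] at hD
  simp only [checkS, Bool.and_eq_true, beq_iff_eq] at hS
  obtain ⟨⟨⟨⟨⟨hS1, hS2⟩, hS3⟩, hS4⟩, hS5⟩, hS6⟩ := hS
  have hrow : ∀ x : Fin c.rows.length, rowOK c.K c.r c.m c.rows[x] = true := by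
    intro x
    exact List.all_eq_true.mp hrows _ (List.getElem_mem _)
  simp only [rowOK, Bool.and_eq_true, beq_iff_eq, decide_eq_true_eq, Nat.ble_eq] at hrow
  -- real versions
  set N := c.rows.length with hN
  have hnR : (0 : ℝ) < (c.n : ℝ) := by exact_mod_cast hn
  have hmR : (0 : ℝ) < (c.m : ℝ) := by exact_mod_cast hm
  have hKr : ∀ i j, c.Kr i j = ∑ x, ∑ s, c.B x s i * c.B x s j := by
    intro i j
    have := hKe i i.2 j j.2
    unfold Cert.Kr
    rw [← this, sumRow_eq]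
    push_cast
    refine Finset.sum_congr rfl fun x _ => ?_
    rw [Fin.sum_univ_two, c.B_zero, c.B_zero, c.B_one, c.B_one]
    simp only [entry]
    push_cast
    ring
  have hcast : ∀ (f : ℕ → ℕ → ℝ), ∑ i : Fin c.r, ∑ j : Fin c.r, f i j
      = ∑ i ∈ Finset.range c.r, ∑ j ∈ Finset.range c.r, f i j := by
    intro f
    rw [← Fin.sum_univ_eq_sum_range (fun i => ∑ j ∈ Finset.range c.r, f i j) c.r]
    refine Finset.sum_congr rfl fun i _ => ?_
    rw [← Fin.sum_univ_eq_sum_range (fun j => f i j) c.r]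
  have hDr : ∀ i : Fin c.r, ∑ j, c.Kr i j ^ 2 = ((c.D.getD i 0 : ℤ) : ℝ) := by
    intro i
    rw [← (hD i i.2).1.1.1, sumN_eq]
    push_cast
    rw [← Fin.sum_univ_eq_sum_range (fun j => (ent2 c.K i j : ℝ) * (ent2 c.K i j : ℝ)) c.r]
    refine Finset.sum_congr rfl fun j _ => ?_
    unfold Cert.Kr; ring
  have hnr : (c.n : ℝ) = ∑ i, ∑ j, c.Kr i j ^ 2 := by
    simp_rw [hDr]
    rw [← hS1, sumN_eq]
    push_cast
    rw [← Fin.sum_univ_eq_sum_range (fun j => ((c.D.getD j 0 : ℤ) : ℝ)) c.r]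
  have hdet : ∀ v : Fin c.r → ℝ, (∀ i, ∑ j, c.Kr i j * v j = 0) → v = 0 := by
    intro v hv
    have hA : (Matrix.of c.Kr).det ≠ 0 := by
      apply det_ne_zero_of_sum_row_lt_diag
      intro i
      have h1 := (hD i i.2).2
      rw [sumN_eq, ← Fin.sum_univ_eq_sum_range
        (fun j => ((ent2 c.K i j).natAbs : ℤ)) c.r] at h1
      rw [← Finset.add_sum_erase _ _ (Finset.mem_univ i)] at h1
      have h2 : (∑ j ∈ Finset.univ.erase i, ((ent2 c.K i (j : Fin c.r)).natAbs : ℤ))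
          < ((ent2 c.K i i).natAbs : ℤ) := by linarith
      have h3 : (∑ j ∈ Finset.univ.erase i, (((ent2 c.K i (j : Fin c.r)).natAbs : ℤ) : ℝ))
          < (((ent2 c.K i i).natAbs : ℤ) : ℝ) := by exact_mod_cast h2
      simpa [Matrix.of_apply, Cert.Kr, Real.norm_eq_abs, Nat.cast_natAbs] using h3
    have := Matrix.eq_zero_of_mulVec_eq_zero hA (v := v) (by
      ext i
      simpa [Matrix.mulVec, dotProduct] using hv i)
    exact this
  have hP : ∀ x : Fin N, ((c.rows[x].p : ℤ) : ℝ) = ∑ i, ∑ j, c.B x 0 i * c.Kr i j * c.B x 0 j := by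
    intro x
    simp_rw [c.B_zero]
    unfold Cert.Kr
    rw [quad_cast c.K _ _ c.r (hrow x).1.1.1.1.1.1.1.1.1.le hKlen, (hrow x).1.1.1.1.1.1.1.2]
  have hQ : ∀ x : Fin N, ((c.rows[x].q : ℤ) : ℝ) = ∑ i, ∑ j, c.B x 0 i * c.Kr i j * c.B x 1 j := by
    intro x
    simp_rw [c.B_zero, c.B_one]
    unfold Cert.Kr
    rw [quad_cast c.K _ _ c.r (hrow x).1.1.1.1.1.1.1.1.1.le hKlen, (hrow x).1.1.1.1.1.1.2]
  have hR : ∀ x : Fin N, ((c.rows[x].s : ℤ) : ℝ) = ∑ i, ∑ j, c.B x 1 i * c.Kr i j * c.B x 1 j := by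
    intro x
    simp_rw [c.B_one]
    unfold Cert.Kr
    rw [quad_cast c.K _ _ c.r (hrow x).1.1.1.1.1.1.1.1.2.le hKlen, (hrow x).1.1.1.1.1.2]
  obtain ⟨st, hst1, hst2, hstP, hst3⟩ := exists_site_of_B hr c.B c.Kr hKr hdet c.n hnr hnR
    (fun x => ((c.rows[x].p : ℤ) : ℝ)) (fun x => ((c.rows[x].q : ℤ) : ℝ))
    (fun x => ((c.rows[x].s : ℤ) : ℝ)) hP hQ hR
  -- entropy bounds
  have hSbound : st.S ≤ Real.log c.n - (c.SS : ℝ) / (c.n * c.m) * Real.log 2 := by
    refine hst1.trans ?_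
    have h1 : ∀ i : Fin c.r, negMulLog ((∑ j, c.Kr i j ^ 2) / c.n)
        ≤ (((c.D.getD i 0 : ℤ) : ℝ) * Real.log c.n
          - ((c.D.getD i 0 * (c.fe.getD i 0 : ℤ) : ℤ) : ℝ) / c.m * Real.log 2) / c.n := by
      intro i
      rw [hDr]
      have hDpos : 0 < c.D.getD i 0 := (hD i i.2).1.1.2
      have hDposR : (0 : ℝ) < ((c.D.getD i 0 : ℤ) : ℝ) := by exact_mod_cast hDpos
      rw [negMulLog_div hDposR hnR]
      apply div_le_div_of_nonneg_right _ hnR.le
      have hpow : (2 : ℝ) ^ c.fe.getD i 0 ≤ ((c.D.getD i 0 : ℤ) : ℝ) ^ c.m := by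
        have h2 := (hD i i.2).1.2
        rw [← toNat_castR hDpos.le]
        exact_mod_cast h2
      have hlog := log_ge_of_pow_ge hm hpow
      have := mul_le_mul_of_nonneg_left hlog hDposR.le
      push_cast
      have e : ((c.D.getD i 0 : ℤ) : ℝ) * (c.fe.getD i 0 : ℝ) / c.m * Real.log 2
        = ((c.D.getD i 0 : ℤ) : ℝ) * ((c.fe.getD i 0 : ℝ) / c.m * Real.log 2) := by ring
      rw [e]
      linarith
    refine (Finset.sum_le_sum fun i _ => h1 i).trans ?_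
    rw [← Finset.sum_div, Finset.sum_sub_distrib, ← Finset.sum_mul, ← Finset.sum_mul,
      ← Finset.sum_div]
    have e1 : ∑ i : Fin c.r, ((c.D.getD i 0 : ℤ) : ℝ) = c.n := by
      rw [← hS1, sumN_eq]
      push_cast
      rw [← Fin.sum_univ_eq_sum_range (fun j => ((c.D.getD j 0 : ℤ) : ℝ)) c.r]
    have e2 : ∑ i : Fin c.r, ((c.D.getD i 0 * (c.fe.getD i 0 : ℤ) : ℤ) : ℝ) = c.SS := by
      rw [← hS2, sumN_eq]
      push_cast
      rw [← Fin.sum_univ_eq_sum_range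
        (fun j => ((c.D.getD j 0 : ℤ) : ℝ) * (c.fe.getD j 0 : ℝ)) c.r]
    rw [e1, e2]
    apply le_of_eq
    field_simp
  have hhbound : Real.log c.n - (c.HS : ℝ) / (c.n * c.m) * Real.log 2 ≤ st.h := by
    rw [hst2]
    have h1 : ∀ x : Fin N, (((c.rows[x].p + c.rows[x].s : ℤ) : ℝ) * Real.log c.n
          - (((c.rows[x].t : ℤ) * (c.rows[x].cm : ℤ)
            + (c.rows[x].p + c.rows[x].s - c.rows[x].t) * (c.rows[x].cp : ℤ) : ℤ) : ℝ) / c.m
            * Real.log 2) / c.n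
        ≤ negMulLog (gp (((c.rows[x].p : ℤ) : ℝ) / c.n) (((c.rows[x].q : ℤ) : ℝ) / c.n)
            (((c.rows[x].s : ℤ) : ℝ) / c.n))
          + negMulLog (gm (((c.rows[x].p : ℤ) : ℝ) / c.n) (((c.rows[x].q : ℤ) : ℝ) / c.n)
            (((c.rows[x].s : ℤ) : ℝ) / c.n)) := by
      intro x
      obtain ⟨⟨⟨⟨⟨_, ht0⟩, ht2⟩, htd⟩, hcm⟩, hcp⟩ := hrow x
      set ρ := c.rows[x] with hρ
      have ht0R : (0 : ℝ) < (ρ.t : ℝ) := by exact_mod_cast ht0
      have ht2R : 2 * (ρ.t : ℝ) ≤ (ρ.p : ℝ) + (ρ.s : ℝ) := by exact_mod_cast ht2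
      have htdR : (ρ.t : ℝ) * ((ρ.p : ℝ) + (ρ.s : ℝ) - (ρ.t : ℝ))
          ≤ (ρ.p : ℝ) * (ρ.s : ℝ) - (ρ.q : ℝ) ^ 2 := by
        rw [sq]; exact_mod_cast htd
      refine le_trans ?_ (eta_block (n := (c.n : ℝ)) hnR ht0R.le ht2R htdR)
      have hτ : (0 : ℝ) < (ρ.p : ℝ) + (ρ.s : ℝ) - (ρ.t : ℝ) := by linarith
      rw [negMulLog_div ht0R hnR, negMulLog_div hτ hnR, ← add_div]
      apply div_le_div_of_nonneg_right _ hnR.le
      have hpow1 : (ρ.t : ℝ) ^ c.m ≤ 2 ^ ρ.cm := by exact_mod_cast hcm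
      have hpow2 : ((ρ.p : ℝ) + (ρ.s : ℝ) - (ρ.t : ℝ)) ^ c.m ≤ 2 ^ ρ.cp := by
        have hτZ : 0 ≤ ρ.p + ρ.s - (ρ.t : ℤ) := by omega
        have h4 : (ρ.p : ℝ) + (ρ.s : ℝ) - (ρ.t : ℝ)
            = ((ρ.p + ρ.s - (ρ.t : ℤ)).toNat : ℝ) := by
          rw [toNat_castR hτZ]; push_cast; ring
        rw [h4]
        exact_mod_cast hcp
      have hl1 := log_le_of_pow_le ht0R hm hpow1
      have hl2 := log_le_of_pow_le hτ hm hpow2
      have hm1 := mul_le_mul_of_nonneg_left hl1 ht0R.le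
      have hm2 := mul_le_mul_of_nonneg_left hl2 hτ.le
      push_cast
      have e : ((ρ.t : ℝ) * (ρ.cm : ℝ) + ((ρ.p : ℝ) + (ρ.s : ℝ) - (ρ.t : ℝ)) * (ρ.cp : ℝ)) / c.m
          * Real.log 2 = (ρ.t : ℝ) * ((ρ.cm : ℝ) / c.m * Real.log 2)
          + ((ρ.p : ℝ) + (ρ.s : ℝ) - (ρ.t : ℝ)) * ((ρ.cp : ℝ) / c.m * Real.log 2) := by ring
      rw [e]
      linarith
    refine le_trans ?_ (Finset.sum_le_sum fun x _ => h1 x)
    rw [← Finset.sum_div, Finset.sum_sub_distrib, ← Finset.sum_mul, ← Finset.sum_mul,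
      ← Finset.sum_div]
    have e1 : ∑ x : Fin N, ((c.rows[x].p + c.rows[x].s : ℤ) : ℝ) = c.n := by
      rw [← hS3, sumRow_eq]
      push_cast
      rfl
    have e2 : ∑ x : Fin N, (((c.rows[x].t : ℤ) * (c.rows[x].cm : ℤ)
            + (c.rows[x].p + c.rows[x].s - c.rows[x].t) * (c.rows[x].cp : ℤ) : ℤ) : ℝ)
            = c.HS := by
      rw [← hS4, sumRow_eq]
      push_cast
      rfl
    rw [e1, e2]
    apply le_of_eq
    field_simp
  have hE : st.E (fun (_ : Unit) (x : Fin N) => (x.val : ℝ)) = 2 / c.n * (c.T2 - c.F2) := by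
    rw [hst3]
    congr 2
    · rw [← hS5, sumW_eq]
      push_cast
      refine Finset.sum_congr rfl fun x _ => ?_
      simp only [Fin.getElem_fin, zero_add]
      ring
    · rw [← hS6, sumN_eq]
      simp_rw [sumN_eq]
      push_cast
      rw [← hcast (fun i j => (ent2 c.F i j : ℝ) * (ent2 c.F i j : ℝ))]
      refine Finset.sum_congr rfl fun i _ => Finset.sum_congr rfl fun j _ => ?_
      rw [← sq]
      congr 1
      rw [← hF i i.2 j j.2, sumW_eq]
      push_cast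
      refine Finset.sum_congr rfl fun x _ => ?_
      rw [Fin.sum_univ_two, c.B_zero, c.B_zero, c.B_one, c.B_one]
      simp only [entry, zero_add]
      push_cast
      ring
  exact ⟨st, hSbound, hhbound, hstP, hE⟩

theorem Cert.sound (num den : ℕ) (hden : 0 < den) (h : c.ok num den) :
    ∃ s : Site (Fin c.rows.length × Fin 2) (Fin c.rows.length),
      (num : ℝ) / den * Real.log 2 < s.h - s.S - 1 / 2 * Real.log (2 * π * Real.exp 1)
        - 1 / 2 * Real.log (s.E (fun (_ : Unit) (x : Fin c.rows.length) => (x.val : ℝ)) + 1 / 6)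
        + Real.log 2 := by
  obtain ⟨hrows, hKc, hF, hD, hS, hG⟩ := h
  obtain ⟨st, hSbound, hhbound, -, hE⟩ := c.base hrows hKc hF hD hS
  refine ⟨st, ?_⟩
  simp only [checkK, Bool.and_eq_true, decide_eq_true_eq] at hKc
  obtain ⟨⟨⟨⟨-, hm⟩, hn⟩, -⟩, -⟩ := hKc
  simp only [checkG, Bool.and_eq_true, decide_eq_true_eq, Nat.ble_eq] at hG
  obtain ⟨⟨hG0, hG1⟩, hG2⟩ := hG
  have hnR : (0 : ℝ) < (c.n : ℝ) := by exact_mod_cast hn
  have hmR : (0 : ℝ) < (c.m : ℝ) := by exact_mod_cast hm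
  -- the logarithm of the energy
  set W : ℝ := 12 * ((c.T2 : ℝ) - c.F2) + c.n with hW
  have hWpos : 0 < W := by rw [hW]; exact_mod_cast hG0
  have hE6 : st.E (fun (_ : Unit) (x : Fin c.rows.length) => (x.val : ℝ)) + 1 / 6 = W / (6 * c.n) := by
    rw [hE, hW]; field_simp
    ring
  have hWz : 0 ≤ 85397343 * (12 * (c.T2 - c.F2) + c.n) := by omega
  have hnz : 0 ≤ 120000000 * c.n := by omega
  have e1 := toNat_castR hWz
  have e2 := toNat_castR hnz
  have h5 : (85397343 * W) ^ c.m ≤ 2 ^ c.g * (120000000 * (c.n : ℝ)) ^ c.m := by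
    have hG1' : (((85397343 * (12 * (c.T2 - c.F2) + c.n)).toNat : ℕ) : ℝ) ^ c.m
      ≤ 2 ^ c.g * (((120000000 * c.n).toNat : ℕ) : ℝ) ^ c.m := by exact_mod_cast hG1
    rw [e1, e2] at hG1'
    push_cast at hG1'
    exact hG1'
  have hlogE := logE_bound hWpos hnR hm h5
  rw [hE6]
  have hfin : (2 : ℝ) * num * c.n * c.m < den * (2 * (c.SS - c.HS) - c.g * c.n) := by
    exact_mod_cast hG2
  have hdenR : (0 : ℝ) < den := by exact_mod_cast hden
  have := final_bound hnR hmR hdenR hSbound hhbound hlogE hfin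
  linarith

end Pool.Agent.H232R2.LP
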